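import Pool.Agent.helper36.PT.Spec

/-!
# Row GCB: splitting of the modulus
-/

set_option autoImplicit false

namespace Pool.Agent.PT

open Finset Pool.Agent.helper71.AA

theorem GCB_natAbs (p q : ℕ) (hp : 1 ≤ p) (hq : 1 ≤ q) :
    ((q : ℤ) ^ 2 - (p : ℤ) ^ 2).natAbs ≤ (p * q) ^ 2 := by
  have h1 : (1 : ℤ) ≤ p := by exact_mod_cast hp
  have h2 : (1 : ℤ) ≤ q := by exact_mod_cast hq
  have h3 : (1 : ℤ) ≤ (p : ℤ) ^ 2 := by nlinarith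
  have h4 : (1 : ℤ) ≤ (q : ℤ) ^ 2 := by nlinarith
  have h5 : |(q : ℤ) ^ 2 - (p : ℤ) ^ 2| ≤ ((p : ℤ) * q) ^ 2 := by
    rw [mul_pow, abs_le]
    constructor <;> nlinarith
  have h6 : ((((q : ℤ) ^ 2 - (p : ℤ) ^ 2).natAbs : ℕ) : ℤ) ≤ (((p * q) ^ 2 : ℕ) : ℤ) := by
    rw [Int.natCast_natAbs]
    push_cast
    exact h5
  exact_mod_cast h6

theorem GCB : GCB_stmt := by
  intro W p q D c Δ hW hp hq hpq hD hsq hDW hDp hDc hΔ
  obtain ⟨A, hA⟩ : ∃ A, A = ((q : ℤ) ^ 2 - (p : ℤ) ^ 2).natAbs := ⟨_, rfl⟩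
  obtain ⟨T, hT⟩ : ∃ T, T = q * Int.gcd Δ D * A := ⟨_, rfl⟩
  have hA0 : A ≠ 0 := by
    rw [hA, Int.natAbs_ne_zero, sub_ne_zero]
    intro h
    have h1 : q ^ 2 = p ^ 2 := by exact_mod_cast h
    exact hpq ((Nat.pow_left_injective (n := 2) (by norm_num) h1).symm)
  have hg0 : Int.gcd Δ D ≠ 0 := by
    rw [Ne, Int.gcd_eq_zero_iff]
    rintro ⟨h, -⟩
    exact hΔ h
  have hT0 : 0 < T := by
    rw [hT]
    exact Nat.pos_of_ne_zero (mul_ne_zero (mul_ne_zero hq.ne_zero hg0) hA0)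
  obtain ⟨M₁, hM₁⟩ : Nat.gcd D T ∣ D := Nat.gcd_dvd_left D T
  obtain ⟨g, hg⟩ : ∃ g, g = Nat.gcd D T := ⟨_, rfl⟩
  rw [← hg] at hM₁
  have hsq' : Squarefree (g * M₁) := hM₁ ▸ hsq
  have hgM : g.Coprime M₁ := Nat.coprime_of_squarefree_mul hsq'
  have hM₁D : M₁ ∣ D := ⟨g, by rw [hM₁, mul_comm]⟩
  have hMT : M₁.Coprime T := by
    have h1 : Nat.gcd M₁ T ∣ g := by
      rw [hg]
      exact Nat.dvd_gcd ((Nat.gcd_dvd_left M₁ T).trans hM₁D) (Nat.gcd_dvd_right M₁ T)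
    exact Nat.eq_one_of_dvd_coprimes hgM h1 (Nat.gcd_dvd_left M₁ T)
  have hMq : M₁.Coprime q := by
    refine Nat.Coprime.coprime_dvd_right ?_ hMT
    rw [hT, mul_assoc]
    exact Dvd.intro _ rfl
  have hMA : M₁.Coprime A := by
    refine Nat.Coprime.coprime_dvd_right ?_ hMT
    rw [hT]
    exact Dvd.intro_left _ rfl
  have hMg : M₁.Coprime (Int.gcd Δ D) := by
    refine Nat.Coprime.coprime_dvd_right ?_ hMT
    rw [hT, mul_comm q, mul_assoc]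
    exact Dvd.intro _ rfl
  have hMW : M₁.Coprime W := Nat.Coprime.coprime_dvd_left hM₁D hDW
  refine ⟨q ^ 2 * W * g, M₁, ?_, ?_, ?_, hM₁D, ?_, ?_⟩
  · rw [hM₁, mul_assoc (q ^ 2 * W) g M₁]
  · exact Nat.Coprime.mul_left (Nat.Coprime.mul_left (Nat.Coprime.pow_left 2 hMq.symm) hMW.symm) hgM
  · exact hsq.squarefree_of_dvd hM₁D
  · have h1 : IsCoprime Δ (M₁ : ℤ) := by
      rw [Int.isCoprime_iff_gcd_eq_one]
      have h2 : Int.gcd Δ (M₁ : ℤ) ∣ Int.gcd Δ D := by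
        refine Int.dvd_gcd (Int.gcd_dvd_left _ _) ?_
        exact (Int.gcd_dvd_right _ _).trans (by exact_mod_cast hM₁D)
      have h3 : Int.gcd Δ (M₁ : ℤ) ∣ M₁ := by
        have := Int.gcd_dvd_right Δ (M₁ : ℤ)
        exact_mod_cast this
      exact Nat.eq_one_of_dvd_coprimes hMg h3 h2
    have h2 : IsCoprime ((q : ℤ) ^ 2 - (p : ℤ) ^ 2) (M₁ : ℤ) := by
      rw [Int.isCoprime_iff_gcd_eq_one, Int.gcd_def, Int.natAbs_natCast, ← hA]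
      exact hMA.symm
    obtain ⟨t, ht⟩ : (M₁ : ℤ) ∣ p ^ 2 * c - 1 := (Int.natCast_dvd_natCast.2 hM₁D).trans hDc
    have h3 : (q : ℤ) ^ 2 - (p : ℤ) ^ 2 = p ^ 2 * (q ^ 2 * c - 1) + M₁ * (-(q ^ 2 * t)) := by
      linear_combination (-(q : ℤ) ^ 2) * ht
    rw [h3] at h2
    have h4 := IsCoprime.of_add_mul_left_left h2
    have h5 : IsCoprime ((q : ℤ) ^ 2 * c - 1) (M₁ : ℤ) := IsCoprime.of_mul_left_right h4
    exact IsCoprime.mul_left h1 h5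
  · have h1 : g ≤ T := by
      rw [hg]
      exact Nat.le_of_dvd hT0 (Nat.gcd_dvd_right D T)
    have h2 : A ≤ (p * q) ^ 2 := by
      rw [hA]
      exact GCB_natAbs p q hp.one_lt.le hq.one_lt.le
    have h3 : q ^ 2 * W * g ≤ W * q ^ 3 * (p * q) ^ 2 * Int.gcd Δ D := by
      calc q ^ 2 * W * g ≤ q ^ 2 * W * (q * Int.gcd Δ D * (p * q) ^ 2) := by
            refine Nat.mul_le_mul_left _ (h1.trans ?_)
            rw [hT]
            exact Nat.mul_le_mul_left _ h2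
        _ = W * q ^ 3 * (p * q) ^ 2 * Int.gcd Δ D := by ring
    exact_mod_cast h3

end Pool.Agent.PT
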